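import Pool.Agent.Helper32.AG.Goals

/-!
# Project AG, packet STP: the induction step
-/

set_option autoImplicit false

namespace Pool.Agent.Helper53.AG

open Pool.Agent.Helper32.AG

universe u

/-! ### Counting -/

/-- Counting by representatives. -/
theorem count {V : Type u} [Finite V] (R : V → V → Prop) (P : V → Prop) (M : ℕ)
    (S : Finset V) (cov : ∀ v, P v → ∃ t ∈ S, R t v)
    (hM : ∀ t ∈ S, Nat.card {v' // R t v'} ≤ M) :
    Nat.card {v // P v} ≤ S.card * M := by
  classical
  have := Fintype.ofFinite V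
  have h1 : (Finset.univ.filter P) ⊆ S.biUnion (fun t => Finset.univ.filter (R t)) := by
    intro v hv
    rw [Finset.mem_filter] at hv
    obtain ⟨t, ht, htv⟩ := cov v hv.2
    rw [Finset.mem_biUnion]
    exact ⟨t, ht, Finset.mem_filter.2 ⟨Finset.mem_univ _, htv⟩⟩
  calc Nat.card {v // P v} = (Finset.univ.filter P).card := by
        rw [Nat.card_eq_fintype_card, Fintype.card_subtype]
    _ ≤ (S.biUnion (fun t => Finset.univ.filter (R t))).card := Finset.card_le_card h1
    _ ≤ ∑ t ∈ S, (Finset.univ.filter (R t)).card := Finset.card_biUnion_le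
    _ ≤ ∑ _t ∈ S, M := by
        apply Finset.sum_le_sum
        intro t ht
        have h2 := hM t ht
        rwa [Nat.card_eq_fintype_card, Fintype.card_subtype] at h2
    _ = S.card * M := by rw [Finset.sum_const, smul_eq_mul]

theorem sumS {V : Type u} [DecidableEq V] (T S : Finset V) (kk : V → ℕ) (pos : ∀ v, 1 ≤ kk v)
    (hS : S ⊆ T) : T.card + ∑ t ∈ S, kk t ≤ ∑ t ∈ T, kk t + S.card := by
  have h1 := Finset.sum_sdiff (f := kk) hS
  have h2 := Finset.card_sdiff_add_card_eq_card hS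
  have h3 : (T \ S).card ≤ ∑ t ∈ T \ S, kk t := by
    calc (T \ S).card = ∑ _t ∈ T \ S, 1 := by simp
      _ ≤ ∑ t ∈ T \ S, kk t := Finset.sum_le_sum fun t _ => pos t
  omega

/-- The combinatorial data of the induction step: `R` = conjugacy on `V`, `nn` = class sizes. -/
structure Dat {V : Type u} (R : V → V → Prop) (T : Finset V) (nn kk : V → ℕ)
    (κ K h kH : ℕ) : Prop where
  refl : ∀ v, R v v
  symm : ∀ v v', R v v' → R v' v
  cov : ∀ v, ∃ t ∈ T, R t v
  nnd : ∀ v, nn v = Nat.card {v' // R v v'}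
  pos : ∀ v, 1 ≤ kk v
  three : ∀ v, 3 * κ ≤ nn v * 3 ^ kk v
  sum : ∑ t ∈ T, kk t = K
  le : ∀ v, nn v ≤ h
  one : ∀ v, nn v = 1 → kH ≤ kk v
  hκ : h ≤ κ

section Dat

variable {V : Type u} [Finite V] {R : V → V → Prop} {T : Finset V} {nn kk : V → ℕ}
  {κ K h kH : ℕ}

theorem Dat.nn_pos (D : Dat R T nn kk κ K h kH) (v : V) : 1 ≤ nn v := by
  rw [D.nnd]
  have : Nonempty {v' // R v v'} := ⟨⟨v, D.refl v⟩⟩
  exact Nat.card_pos

theorem Dat.single (D : Dat R T nn kk κ K h kH) {v v' : V} (hv : nn v = 1) (hr : R v v') :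
    v' = v := by
  rw [D.nnd] at hv
  have h1 := (Nat.card_eq_one_iff_unique.1 hv).1
  have h2 : (⟨v', hr⟩ : {v' // R v v'}) = ⟨v, D.refl v⟩ := Subsingleton.elim _ _
  exact congrArg Subtype.val h2

theorem Dat.mem (D : Dat R T nn kk κ K h kH) {v : V} (hv : nn v = 1) : v ∈ T := by
  obtain ⟨t, ht, htv⟩ := D.cov v
  have := D.single hv (D.symm _ _ htv)
  rwa [this] at ht

/-- the number of the other elements -/
theorem Dat.rest (D : Dat R T nn kk κ K h kH) {t0 : V} (h0 : nn t0 = 1) :
    Nat.card {v : V // v ≠ t0} + 1 = Nat.card V ∧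
    Nat.card {v : V // v ≠ t0} ≤ (T.card - 1) * h ∧
    ∀ t, t ≠ t0 → nn t ≤ Nat.card {v : V // v ≠ t0} := by
  classical
  refine ⟨?_, ?_, ?_⟩
  · have := Fintype.ofFinite V
    rw [Nat.card_eq_fintype_card, Fintype.card_subtype, Nat.card_eq_fintype_card,
      Finset.filter_ne', Finset.card_erase_of_mem (Finset.mem_univ _), Finset.card_univ]
    have : 0 < Fintype.card V := Fintype.card_pos_iff.2 ⟨t0⟩
    omega
  · have h1 := count R (fun v => v ≠ t0) h (T.erase t0) (fun v hv => ?_)
      (fun t _ => by rw [← D.nnd]; exact D.le t)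
    · rwa [Finset.card_erase_of_mem (D.mem h0)] at h1
    · obtain ⟨t, ht, htv⟩ := D.cov v
      refine ⟨t, Finset.mem_erase.2 ⟨?_, ht⟩, htv⟩
      rintro rfl
      exact hv (D.single h0 htv)
  · intro t ht
    rw [D.nnd]
    refine Nat.card_le_card_of_injective
      (fun x : {v' // R t v'} => (⟨x.1, ?_⟩ : {v : V // v ≠ t0})) ?_
    · intro hx
      have hr : R t t0 := hx ▸ x.2
      exact ht (D.single h0 (D.symm _ _ hr))
    · intro x y hxy
      have := congrArg Subtype.val hxy
      exact Subtype.ext this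

/-- Levels. -/
theorem Dat.levels (D : Dat R T nn kk κ K h kH) (L : V → ℕ) (s w : ℕ) (hw : 1 ≤ w)
    (hL : ∀ v v', R v v' → L v = L v')
    (hN : ∀ j, Nat.card {v // L v = j} = s.choose j * w ^ j) :
    (∀ j, j ≤ s → ∃ t ∈ T, L t = j ∧ nn t ≤ s.choose j * w ^ j) ∧
    ∃ r : ℕ, 1 ≤ r ∧ s + r ≤ T.card ∧ w ^ s ≤ r * h := by
  classical
  have hex : ∀ j, j ≤ s → ∃ t ∈ T, L t = j := by
    intro j hj
    have h1 : 0 < Nat.card {v // L v = j} := by
      rw [hN]
      exact Nat.mul_pos (Nat.choose_pos hj) (pow_pos hw j)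
    obtain ⟨v, hv⟩ := (Nat.card_pos_iff.1 h1).1
    obtain ⟨t, ht, htv⟩ := D.cov v
    exact ⟨t, ht, by rw [hL _ _ htv, hv]⟩
  refine ⟨?_, (T.filter (fun t => L t = s)).card, ?_, ?_, ?_⟩
  · intro j hj
    obtain ⟨t, ht, htj⟩ := hex j hj
    refine ⟨t, ht, htj, ?_⟩
    rw [D.nnd, ← hN]
    refine Nat.card_le_card_of_injective
      (fun x : {v' // R t v'} => (⟨x.1, ?_⟩ : {v : V // L v = j})) ?_
    · rw [← hL _ _ x.2, htj]
    · intro x y hxy
      have := congrArg Subtype.val hxy
      exact Subtype.ext this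
  · obtain ⟨t, ht, hts⟩ := hex s le_rfl
    exact Finset.card_pos.2 ⟨t, Finset.mem_filter.2 ⟨ht, hts⟩⟩
  · have h1 : s ≤ (T.filter (fun t => ¬ L t = s)).card := by
      have h2 : Finset.range s ⊆ (T.filter (fun t => ¬ L t = s)).image L := by
        intro j hj
        rw [Finset.mem_range] at hj
        obtain ⟨t, ht, htj⟩ := hex j hj.le
        exact Finset.mem_image.2 ⟨t, Finset.mem_filter.2 ⟨ht, by omega⟩, htj⟩
      calc s = (Finset.range s).card := (Finset.card_range s).symm
        _ ≤ _ := Finset.card_le_card h2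
        _ ≤ _ := Finset.card_image_le
    have h3 := Finset.card_filter_add_card_filter_not (s := T) (fun t => L t = s)
    omega
  · have h1 := count R (fun v => L v = s) h (T.filter (fun t => L t = s)) (fun v hv => ?_)
      (fun t _ => by rw [← D.nnd]; exact D.le t)
    · rw [hN, Nat.choose_self, one_mul] at h1
      exact h1
    · obtain ⟨t, ht, htv⟩ := D.cov v
      exact ⟨t, Finset.mem_filter.2 ⟨ht, by rw [hL _ _ htv, hv]⟩, htv⟩

/-- many orbits -/
theorem Dat.many (D : Dat R T nn kk κ K h kH) {t0 : V} (h0 : nn t0 = 1)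
    (hU : Nat.card V ≤ 3 ^ (T.card - 1)) : 3 * (κ * Nat.card V) ≤ 3 ^ K := by
  classical
  have h1 := sumS T {t0} kk D.pos (by simpa using D.mem h0)
  rw [Finset.sum_singleton, Finset.card_singleton, D.sum] at h1
  have h2 : 0 < T.card := Finset.card_pos.2 ⟨t0, D.mem h0⟩
  have h3 := D.three t0
  rw [h0, one_mul] at h3
  calc 3 * (κ * Nat.card V) = 3 * κ * Nat.card V := by ring
    _ ≤ 3 ^ kk t0 * 3 ^ (T.card - 1) := Nat.mul_le_mul h3 hU
    _ = 3 ^ (kk t0 + (T.card - 1)) := by rw [pow_add]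
    _ ≤ 3 ^ K := Nat.pow_le_pow_right (by norm_num) (by omega)

end Dat

/-! ### Groups -/

theorem k_le {X Y : Type u} [Group X] [Group Y] [Finite X] (f : X →* Y)
    (hf : Function.Surjective f) : k Y ≤ k X := by
  unfold k
  have : Finite (ConjClasses X) := inferInstanceAs (Finite (Quotient _))
  exact Nat.card_le_card_of_surjective (ConjClasses.map f) (ConjClasses.map_surjective hf)

theorem k_pos {X : Type u} [Group X] [Finite X] : 1 ≤ k X := by
  unfold k
  have : Finite (ConjClasses X) := inferInstanceAs (Finite (Quotient _))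
  have : Nonempty (ConjClasses X) := ⟨ConjClasses.mk 1⟩
  exact Nat.card_pos

theorem stp (hN1 : N1Stmt) (hN2 : N2Stmt) (hN3 : N3Stmt) : StpStmt.{u} := by
  classical
  intro p hp G _ _ V hV U _ _ _ _ ρ φ hab hφ1 hφ hρV horb hT hthree hout
  obtain ⟨T, hTcov, _, hTsum⟩ := hT
  -- conjugacy
  have hconj : ∀ v v' : V, IsConj (v : G) (v' : G) ↔ ∃ g : G, φ v' = ρ g (φ v) := by
    intro v v'
    rw [isConj_iff]
    constructor
    · rintro ⟨g, hg⟩
      refine ⟨g, ?_⟩
      rw [← hφ]
      congr 1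
      exact Subtype.ext hg.symm
    · rintro ⟨g, hg⟩
      refine ⟨g, ?_⟩
      rw [← hφ] at hg
      exact (congrArg Subtype.val (φ.injective hg)).symm
  -- the map from `G / V` onto the range
  let f : G ⧸ V →* ρ.range := QuotientGroup.lift V ρ.rangeRestrict (by
    intro g hg
    exact Subtype.ext (hρV g hg))
  have hf : Function.Surjective f := by
    intro y
    obtain ⟨g, hg⟩ := ρ.rangeRestrict_surjective y
    exact ⟨(g : G ⧸ V), hg⟩
  have hfinH : Finite ρ.range := Finite.of_surjective f hf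
  have D : Dat (V := V) (fun v v' => IsConj (v : G) (v' : G)) T
      (fun v => Nat.card {v' : V // IsConj (v : G) (v' : G)}) (fun v => k (Kst V (v : G)))
      (Nat.card (G ⧸ V)) (k G) (Nat.card ρ.range) (k ρ.range) := {
    refl := fun v => IsConj.refl _
    symm := fun v v' h => h.symm
    cov := fun v => hTcov v
    nnd := fun v => rfl
    pos := fun v => k_pos
    three := by
      intro v
      calc 3 * Nat.card (G ⧸ V)
          = Nat.card {v' : V // IsConj (v : G) (v' : G)} * (3 * Nat.card (Kst V (v : G))) := by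
            rw [← horb v]; ring
        _ ≤ _ := Nat.mul_le_mul_left _ (hthree v)
    sum := hTsum
    le := by
      intro v
      refine Nat.card_le_card_of_surjective
        (fun y : ρ.range => (⟨φ.symm ((y : U ≃ₗ[ZMod p] U) (φ v)), ?_⟩ :
          {v' : V // IsConj (v : G) (v' : G)})) ?_
      · rw [hconj]
        obtain ⟨g, hg⟩ := y.2
        exact ⟨g, by rw [Equiv.apply_symm_apply, hg]⟩
      · rintro ⟨v', hv'⟩
        obtain ⟨g, hg⟩ := (hconj v v').1 hv'
        refine ⟨⟨ρ g, g, rfl⟩, ?_⟩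
        apply Subtype.ext
        show φ.symm (ρ g (φ v)) = v'
        rw [← hg, Equiv.symm_apply_apply]
    one := by
      intro v hv
      have h1 := horb v
      rw [hv, one_mul] at h1
      have htop : Kst V (v : G) = ⊤ := Subgroup.eq_top_of_card_eq _ h1
      refine k_le (f.comp (Kst V (v : G)).subtype) ?_
      intro y
      obtain ⟨x, hx⟩ := hf y
      exact ⟨⟨x, by rw [htop]; trivial⟩, hx⟩
    hκ := Nat.card_le_card_of_surjective f hf }
  have hcG : Nat.card G = Nat.card (G ⧸ V) * Nat.card V :=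
    Subgroup.card_eq_card_quotient_mul_card_subgroup V
  have hcV : Nat.card V = Nat.card U := Nat.card_congr φ
  -- the class of 1
  have h1 : Nat.card {v' : V // IsConj ((1 : V) : G) (v' : G)} = 1 := by
    rw [Nat.card_eq_one_iff_unique]
    refine ⟨⟨?_⟩, ⟨1, IsConj.refl _⟩⟩
    have key : ∀ x : {v' : V // IsConj ((1 : V) : G) (v' : G)}, x.1 = 1 := by
      intro x
      obtain ⟨g, hg⟩ := (hconj 1 x.1).1 x.2
      rw [hφ1, map_zero, ← hφ1] at hg
      exact φ.injective hg
    intro x y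
    exact Subtype.ext ((key x).trans (key y).symm)
  have hcard2 : 2 ≤ Nat.card V := by
    rw [hcV]
    exact Finite.one_lt_card
  rw [hcG]
  -- levels are available
  have hlev : ∀ s q : ℕ, Levels ρ.range s q → 2 ≤ q ∧ Nat.card V = q ^ s ∧ ∃ L : V → ℕ,
      (∀ v v' : V, IsConj (v : G) (v' : G) → L v = L v') ∧
      ∀ j, Nat.card {v // L v = j} = s.choose j * (q - 1) ^ j := by
    rintro s q ⟨hq, hc, lev, hinv, hN⟩
    refine ⟨hq, by rw [hcV, hc], fun v => lev (φ v), ?_, ?_⟩
    · intro v v' hvv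
      obtain ⟨g, hg⟩ := (hconj v v').1 hvv
      show lev (φ v) = lev (φ v')
      rw [hg]
      exact (hinv (ρ g) ⟨g, rfl⟩ (φ v)).symm
    · intro j
      rw [← hN j]
      exact Nat.card_congr (φ.subtypeEquiv (fun v => Iff.rfl))
  -- small `q`
  have hsmall : ∀ s q : ℕ, Levels ρ.range s q → q ≤ 3 →
      3 * (Nat.card (G ⧸ V) * Nat.card V) ≤ 3 ^ k G := by
    intro s q hl hq3
    obtain ⟨hq, hc, L, hL, hN⟩ := hlev s q hl
    obtain ⟨_, r, hr, hrT, _⟩ := D.levels L s (q - 1) (by omega) hL hN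
    apply D.many h1
    rw [hc]
    calc q ^ s ≤ 3 ^ s := Nat.pow_le_pow_left hq3 s
      _ ≤ 3 ^ (T.card - 1) := Nat.pow_le_pow_right (by norm_num) (by omega)
  rcases hout with ⟨s, q, hs, hl⟩ | ho | ht | hm
  · -- at least three blocks
    rcases le_or_gt q 3 with hq3 | hq3
    · exact hsmall s q hl hq3
    obtain ⟨hq, hc, L, hL, hN⟩ := hlev s q hl
    obtain ⟨hex, r, hr, hrT, hwr⟩ := D.levels L s (q - 1) (by omega) hL hN
    obtain ⟨t0, ht0, hl0, hn0⟩ := hex 0 (by omega)
    obtain ⟨t1, ht1, hl1, hn1⟩ := hex 1 (by omega)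
    obtain ⟨t2, ht2, hl2, hn2⟩ := hex 2 (by omega)
    rw [Nat.choose_zero_right, pow_zero, mul_one] at hn0
    rw [Nat.choose_one_right, pow_one] at hn1
    have hS := sumS T {t0, t1, t2} (fun v => k (Kst V (v : G))) D.pos (by
      intro x hx
      simp only [Finset.mem_insert, Finset.mem_singleton] at hx
      rcases hx with rfl | rfl | rfl
      · exact ht0
      · exact ht1
      · exact ht2)
    have h01 : t0 ∉ ({t1, t2} : Finset V) := by
      simp only [Finset.mem_insert, Finset.mem_singleton, not_or]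
      constructor
      · rintro rfl
        omega
      · rintro rfl
        omega
    have h12 : t1 ∉ ({t2} : Finset V) := by
      simp only [Finset.mem_singleton]
      rintro rfl
      omega
    rw [Finset.sum_insert h01, Finset.sum_insert h12, Finset.sum_singleton,
      Finset.card_insert_of_notMem h01, Finset.card_insert_of_notMem h12, Finset.card_singleton,
      hTsum] at hS
    have e0 := D.three t0
    have e1 := D.three t1
    have e2 := D.three t2
    have f1 : 3 * Nat.card (G ⧸ V) ≤ 3 ^ k (Kst V (t1 : G)) * (s * (q - 1)) := by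
      refine e1.trans ?_
      rw [mul_comm]
      exact Nat.mul_le_mul_left _ hn1
    have f2 : 3 * Nat.card (G ⧸ V) ≤ 3 ^ k (Kst V (t2 : G)) * (s.choose 2 * (q - 1) ^ 2) := by
      refine e2.trans ?_
      rw [mul_comm]
      exact Nat.mul_le_mul_left _ hn2
    have f3 : (q - 1) ^ s ≤ r * Nat.card (G ⧸ V) := hwr.trans (Nat.mul_le_mul_left _ D.hκ)
    have fκ : 1 ≤ Nat.card (G ⧸ V) := Nat.card_pos
    have g1 := hN1 s (q - 1) (Nat.card (G ⧸ V)) _ _ r hs (by omega) fκ (D.pos t1) (D.pos t2) hr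
      f1 f2 f3
    have g2 : q - 1 + 1 = q := by omega
    rw [g2] at g1
    have g3 : 3 * Nat.card (G ⧸ V) ≤ 3 ^ k (Kst V (t0 : G)) := by
      refine e0.trans ?_
      calc _ ≤ 1 * 3 ^ k (Kst V (t0 : G)) := Nat.mul_le_mul_right _ hn0
        _ = _ := one_mul _
    rw [hc]
    calc 3 * (Nat.card (G ⧸ V) * q ^ s) = 3 * Nat.card (G ⧸ V) * q ^ s := by ring
      _ ≤ 3 ^ k (Kst V (t0 : G)) *
          3 ^ (k (Kst V (t1 : G)) + k (Kst V (t2 : G)) + r + (s - 3)) := Nat.mul_le_mul g3 g1
      _ = 3 ^ (k (Kst V (t0 : G)) +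
          (k (Kst V (t1 : G)) + k (Kst V (t2 : G)) + r + (s - 3))) := by rw [← pow_add]
      _ ≤ 3 ^ k G := Nat.pow_le_pow_right (by norm_num) (by omega)
  · -- one block
    obtain ⟨a, d, h, ha, hd, hh, hcU, hda, hpd, hdiv, hprop, hcH, hkH⟩ := ho
    obtain ⟨r1, r2, r3⟩ := D.rest h1
    rw [hcV, hcU] at r1
    rcases le_or_gt (p ^ a) 3 with h3 | h3
    · apply D.many h1
      have hT2 : 2 ≤ T.card := by
        by_contra hc
        have : T.card - 1 = 0 := by omega
        rw [this, zero_mul] at r2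
        rw [hcV, hcU] at hcard2
        omega
      rw [hcV, hcU]
      calc p ^ a ≤ 3 ^ 1 := by simpa using h3
        _ ≤ 3 ^ (T.card - 1) := Nat.pow_le_pow_right (by norm_num) (by omega)
    have hT2 : 2 ≤ T.card := by
      by_contra hc
      have : T.card - 1 = 0 := by omega
      rw [this, zero_mul] at r2
      omega
    -- a nontrivial class
    have hex : ∃ t ∈ T, t ≠ 1 := by
      by_contra hc
      push Not at hc
      have : T ⊆ {1} := by
        intro x hx
        simpa using hc x hx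
      have := Finset.card_le_card this
      rw [Finset.card_singleton] at this
      omega
    obtain ⟨t1, ht1, hne⟩ := hex
    have hS := sumS T {1, t1} (fun v => k (Kst V (v : G))) D.pos (by
      intro x hx
      simp only [Finset.mem_insert, Finset.mem_singleton] at hx
      rcases hx with rfl | rfl
      · exact D.mem h1
      · exact ht1)
    have h01 : (1 : V) ∉ ({t1} : Finset V) := by
      simp only [Finset.mem_singleton]
      exact fun hc => hne hc.symm
    rw [Finset.sum_insert h01, Finset.sum_singleton, Finset.card_insert_of_notMem h01,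
      Finset.card_singleton, hTsum] at hS
    have g0 := D.one 1 h1
    have e1 := D.three t1
    have n1 := r3 t1 hne
    have hle : p ^ a - 1 ≤ (T.card - 1) * (h * d) := by
      rw [← hcH]
      omega
    have g1 := hN3 p a d h (k ρ.range) (T.card - 1) hp.out ha (by omega) hd hh hda hpd hdiv hprop
      hkH (by omega) hle
    have g3 : 3 * Nat.card (G ⧸ V) ≤ (p ^ a - 1) * 3 ^ k (Kst V (t1 : G)) := by
      refine e1.trans (Nat.mul_le_mul_right _ ?_)
      refine n1.trans ?_
      omega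
    rw [hcV, hcU]
    calc 3 * (Nat.card (G ⧸ V) * p ^ a) = 3 * Nat.card (G ⧸ V) * p ^ a := by ring
      _ ≤ (p ^ a - 1) * 3 ^ k (Kst V (t1 : G)) * p ^ a := Nat.mul_le_mul_right _ g3
      _ = p ^ a * (p ^ a - 1) * 3 ^ k (Kst V (t1 : G)) := by ring
      _ ≤ 3 ^ (k ρ.range + (T.card - 1) - 1) * 3 ^ k (Kst V (t1 : G)) :=
          Nat.mul_le_mul_right _ g1
      _ = 3 ^ (k ρ.range + (T.card - 1) - 1 + k (Kst V (t1 : G))) := by rw [← pow_add]
      _ ≤ 3 ^ k G := Nat.pow_le_pow_right (by norm_num) (by omega)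
  · -- two blocks
    obtain ⟨a, e, α, hp2, ha, he, hα, hl, hea, hpe, hcH, hkH, hx9, hx25⟩ := ht
    rcases le_or_gt (p ^ a) 3 with hq3 | hq3
    · exact hsmall 2 (p ^ a) hl hq3
    have hq5 : 5 ≤ p ^ a := by
      have hodd : Odd (p ^ a) := (hp.out.odd_of_ne_two hp2).pow
      rcases hodd with ⟨m, hm⟩
      omega
    obtain ⟨hq, hc, L, hL, hN⟩ := hlev 2 (p ^ a) hl
    obtain ⟨hex, r, hr, hrT, hwr⟩ := D.levels L 2 (p ^ a - 1) (by omega) hL hN
    obtain ⟨t0, ht0, hl0, hn0⟩ := hex 0 (by omega)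
    obtain ⟨t1, ht1, hl1, hn1⟩ := hex 1 (by omega)
    obtain ⟨t2, ht2, hl2, hn2⟩ := hex 2 (by omega)
    rw [Nat.choose_zero_right, pow_zero, mul_one] at hn0
    rw [Nat.choose_one_right, pow_one] at hn1
    rw [Nat.choose_self, one_mul] at hn2
    have hS := sumS T {t0, t1, t2} (fun v => k (Kst V (v : G))) D.pos (by
      intro x hx
      simp only [Finset.mem_insert, Finset.mem_singleton] at hx
      rcases hx with rfl | rfl | rfl
      · exact ht0
      · exact ht1
      · exact ht2)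
    have h01 : t0 ∉ ({t1, t2} : Finset V) := by
      simp only [Finset.mem_insert, Finset.mem_singleton, not_or]
      constructor
      · rintro rfl
        omega
      · rintro rfl
        omega
    have h12 : t1 ∉ ({t2} : Finset V) := by
      simp only [Finset.mem_singleton]
      rintro rfl
      omega
    rw [Finset.sum_insert h01, Finset.sum_insert h12, Finset.sum_singleton,
      Finset.card_insert_of_notMem h01, Finset.card_insert_of_notMem h12, Finset.card_singleton,
      hTsum] at hS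
    have g0 := D.one t0 (le_antisymm hn0 (D.nn_pos t0))
    have e1 := D.three t1
    have e2 := D.three t2
    have f1 : 3 * (2 * e * α) ≤ 3 ^ k (Kst V (t1 : G)) * (2 * (p ^ a - 1)) := by
      rw [← hcH]
      calc 3 * Nat.card ρ.range ≤ 3 * Nat.card (G ⧸ V) := Nat.mul_le_mul_left _ D.hκ
        _ ≤ _ := e1
        _ = 3 ^ k (Kst V (t1 : G)) * Nat.card {v' : V // IsConj (t1 : G) (v' : G)} :=
            mul_comm _ _
        _ ≤ _ := Nat.mul_le_mul_left _ hn1
    have f3 : (p ^ a - 1) ^ 2 ≤ r * (2 * e * α) := by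
      rw [← hcH]
      exact hwr
    have g1 := hN2 p a e α (k ρ.range) _ r hp.out hp2 ha hq5 he hα hea hpe hx9 hx25 hkH
      (D.pos t1) hr f1 f3
    have g3 : 3 * Nat.card (G ⧸ V) ≤ (p ^ a - 1) ^ 2 * 3 ^ k (Kst V (t2 : G)) :=
      e2.trans (Nat.mul_le_mul_right _ hn2)
    rw [hc]
    calc 3 * (Nat.card (G ⧸ V) * (p ^ a) ^ 2) = 3 * Nat.card (G ⧸ V) * (p ^ a) ^ 2 := by ring
      _ ≤ (p ^ a - 1) ^ 2 * 3 ^ k (Kst V (t2 : G)) * (p ^ a) ^ 2 := Nat.mul_le_mul_right _ g3
      _ = (p ^ a) ^ 2 * (p ^ a - 1) ^ 2 * 3 ^ k (Kst V (t2 : G)) := by ring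
      _ ≤ 3 ^ (k ρ.range + k (Kst V (t1 : G)) + r - 1) * 3 ^ k (Kst V (t2 : G)) :=
          Nat.mul_le_mul_right _ g1
      _ = 3 ^ (k ρ.range + k (Kst V (t1 : G)) + r - 1 + k (Kst V (t2 : G))) := by
          rw [← pow_add]
      _ ≤ 3 ^ k G := Nat.pow_le_pow_right (by norm_num) (by omega)
  · -- many orbits
    obtain ⟨r1, r2, r3⟩ := D.rest h1
    apply D.many h1
    rw [hcV]
    apply hm
    rw [← hcV]
    omega

end Pool.Agent.Helper53.AG
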